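import Pool.Agent.Helper623.TB.Final

/-!
# A space with double operational and double generalized summation bases without the bounded
approximation property

The space of the starting file `NoTBasis` fails the bounded approximation property, so it is not
even isomorphic to a complemented subspace of a Banach space with a `T`-basis.
-/

set_option autoImplicit false
open scoped Topology ENNReal
open Filter

namespace Pool.Agent.Results.MP_43aa21_an.NotComplemented

open Pool.Agent.Helper623.TB Pool.Agent.Helper623.TB.Final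

/-- The bounded approximation property passes to spaces `E` which are isomorphic to a complemented
subspace of `F`, that is, the identity of `E` factors through `F`. -/
theorem bap_of_factor {E F : Type} [NormedAddCommGroup E] [NormedSpace ℝ E] [NormedAddCommGroup F]
    [NormedSpace ℝ F] (J : E →L[ℝ] F) (R : F →L[ℝ] E) (h : ∀ x, R (J x) = x) (hF : BAP F) :
    BAP E := by
  obtain ⟨C, hC⟩ := hF
  refine ⟨‖R‖ * C * ‖J‖, fun K hK ε hε => ?_⟩
  have hpos : 0 < ‖R‖ + 1 := by positivity
  obtain ⟨T, hT1, hT2, hT3⟩ := hC (J '' K) (hK.image J.continuous) (ε / (‖R‖ + 1))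
    (div_pos hε hpos)
  refine ⟨R.comp (T.comp J), ?_, ?_, ?_⟩
  · have hle : LinearMap.range ((R.comp (T.comp J) : E →L[ℝ] E) : E →ₗ[ℝ] E) ≤
        (LinearMap.range (T : F →ₗ[ℝ] F)).map (R : F →ₗ[ℝ] E) := by
      rintro _ ⟨x, rfl⟩
      exact ⟨T (J x), ⟨J x, rfl⟩, rfl⟩
    exact Submodule.finiteDimensional_of_le hle
  · calc ‖R.comp (T.comp J)‖ ≤ ‖R‖ * ‖T.comp J‖ := R.opNorm_comp_le _
      _ ≤ ‖R‖ * (‖T‖ * ‖J‖) := by
          gcongr
          exact T.opNorm_comp_le _
      _ ≤ ‖R‖ * (C * ‖J‖) := by gcongr
      _ = ‖R‖ * C * ‖J‖ := by ring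
  · intro x hx
    have h1 : R.comp (T.comp J) x - x = R (T (J x) - J x) := by
      rw [map_sub, h x]
      rfl
    rw [h1]
    calc ‖R (T (J x) - J x)‖ ≤ ‖R‖ * ‖T (J x) - J x‖ := R.le_opNorm _
      _ ≤ ‖R‖ * (ε / (‖R‖ + 1)) := by
          gcongr
          exact hT3 (J x) ⟨x, hx, rfl⟩
      _ ≤ (‖R‖ + 1) * (ε / (‖R‖ + 1)) := by
          gcongr
          linarith
      _ = ε := by field_simp

/-- (1) There is a real Banach space `E` with a sequence that is at the same time a double
operational basis and a double generalized summation basis of `E`, such that `E` fails the bounded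
approximation property and is not isomorphic to a complemented subspace of any Banach space `F`
which has a `T`-basis for some consistent matrix `T`; in particular `E` has no `T`-basis for any
consistent `T` (triangular or not).
(2) Every real Banach space with a `T`-basis, for some consistent matrix `T`, has the bounded
approximation property. -/
theorem result :
    (∃ (E : Type) (_ : NormedAddCommGroup E) (_ : NormedSpace ℝ E) (_ : CompleteSpace E),
      (∃ x : ℕ → E, IsDoubleOperationalBasis x ∧ IsDoubleGenSummationBasis x) ∧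
      ¬ BAP E ∧
      (∀ (F : Type) (_ : NormedAddCommGroup F) (_ : NormedSpace ℝ F) (_ : CompleteSpace F)
        (T : ℕ → ℕ → ℝ) (y : ℕ → F), IsConsistent T → IsTBasis T y →
        ¬ ∃ (J : E →L[ℝ] F) (R : F →L[ℝ] E), ∀ x, R (J x) = x) ∧
      ∀ T : ℕ → ℕ → ℝ, IsConsistent T → ∀ x : ℕ → E, ¬ IsTBasis T x) ∧
    (∀ (E : Type) (_ : NormedAddCommGroup E) (_ : NormedSpace ℝ E) (_ : CompleteSpace E)
      (T : ℕ → ℕ → ℝ) (x : ℕ → E), IsConsistent T → IsTBasis T x → BAP E) := by
  refine ⟨?_, fun E _ _ _ T x hT hx => Gen.bap_of_tbasis hT hx⟩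
  have hcomp : CompleteSpace D.S := D.S_closed.completeSpace_coe
  refine ⟨D.S, inferInstance, inferInstance, hcomp, exists_bases D no_bap, no_bap, ?_,
    fun T hT x hx => no_bap (Gen.bap_of_tbasis hT hx)⟩
  rintro F _ _ _ T y hT hy ⟨J, R, h⟩
  exact no_bap (bap_of_factor J R h (Gen.bap_of_tbasis hT hy))

end Pool.Agent.Results.MP_43aa21_an.NotComplemented
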